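import Mathlib
import Pool.Agent.H54.WZ3

namespace Pool.Agent.Results.MP_d51828_nt.Int

open Nat Finset Pool.Agent.H54.SuperCat

def g (n j : ℕ) : ℚ := 256 ^ n * (n + 1) * (2 * j + 1) * (hz n j * h (n + j + 1) * iv n (2 * j) / (n + 2 * j + 2)!) ^ 2
def f (n j : ℕ) : ℚ := 256 ^ n / 16 * (hz n j * h (n + j) * iv n (2 * j) / (n + 2 * j)!) ^ 2 *
  (21 * n ^ 3 + 22 * n ^ 2 + 8 * n + 1 - 4 * j ^ 2 * (3 * n + 1))

lemma cl (n j : ℕ) : (2 * n + 3) ^ 3 * g (n + 1) j - 32 * (n + 1) ^ 3 * g n j = f (n + 1) j - f (n + 1) (j + 1) := by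
  have e1 : iv n (2 * j) = iv (n + 1) (2 * j) * (n + 1 - 2 * j) := by
    rw [← iv_ss n (2 * j), iv]; push_cast; ring
  have e2 : iv (n + 1) (2 * (j + 1)) = iv (n + 1) (2 * j) * (n + 1 - 2 * j) * (n - 2 * j) := by
    rw [show 2 * (j + 1) = 2 * j + 1 + 1 by ring, iv, iv]; push_cast; ring
  simp only [g, f, hz_ss, hz_s, e2, show n + 1 + j + 1 = n + j + 1 + 1 by ring, show n + 1 + j = n + j + 1 by ring,
    show n + 1 + (j + 1) = n + j + 1 + 1 by ring, show n + 1 + 2 * j + 2 = n + 2 * j + 1 + 1 + 1 by ring,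
    show n + 2 * j + 2 = n + 2 * j + 1 + 1 by ring, show n + 1 + 2 * j = n + 2 * j + 1 by ring,
    show n + 1 + 2 * (j + 1) = n + 2 * j + 1 + 1 + 1 by ring, factorial_succ (n + 2 * j + 1 + 1),
    factorial_succ (n + 2 * j + 1), h.eq_2 (n + j + 1), pow_succ (256 : ℚ)]
  rw [e1]
  push_cast
  field_simp
  ring

def b (n : ℕ) : ℚ := ∑ j ∈ range (n + 1), g n j

lemma f0 (n : ℕ) : f (n + 1) 0 = (21 * (n + 1) ^ 3 + 22 * (n + 1) ^ 2 + 8 * (n + 1) + 1) *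
    ((2 * (n + 1) - 1).choose (n + 1) : ℚ) ^ 4 := by
  have e : ((2 * (n + 1) - 1).choose (n + 1) : ℚ) = 4 ^ (n + 1) * h (n + 1) / (n + 1)! / 2 := by
    rw [← cb, show 2 * (n + 1) - 1 = 2 * n + 1 by omega, show 2 * (n + 1) = 2 * n + 1 + 1 by ring,
      Nat.choose_succ_succ' (2 * n + 1) n, ← Nat.choose_symm_half n]
    push_cast; ring
  rw [e, f, show (256 : ℚ) = 4 ^ 4 by norm_num, ← pow_mul, mul_comm 4 (n + 1), pow_mul]
  simp only [hz, iv, mul_zero, add_zero]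
  push_cast
  field_simp
  ring

lemma b_rec (n : ℕ) : (2 * n + 3) ^ 3 * b (n + 1) = 32 * (n + 1) ^ 3 * b n +
    (21 * (n + 1) ^ 3 + 22 * (n + 1) ^ 2 + 8 * (n + 1) + 1) * ((2 * (n + 1) - 1).choose (n + 1) : ℚ) ^ 4 := by
  have e1 : b n = ∑ j ∈ range (n + 2), g n j := by
    rw [sum_range_succ, b, g, show 2 * (n + 1) = n + (n + 1) + 1 by ring, iv_lt]; simp
  have e2 : f (n + 1) (n + 2) = 0 := by
    rw [f, show 2 * (n + 2) = n + 1 + (n + 2) + 1 by ring, iv_lt]; simp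
  have e3 := Finset.sum_range_sub' (f (n + 1)) (n + 2)
  rw [← f0, e1, b, mul_sum, mul_sum, ← sub_eq_iff_eq_add', ← sum_sub_distrib]
  simp only [cl]
  rw [e3, e2, sub_zero]

lemma hz_ad (c : ℕ) : ∀ j, hz (j + c) j = h c
  | 0 => by simp [hz]
  | j + 1 => by rw [show j + 1 + c = j + c + 1 by ring, hz_ss, hz_ad c j]

lemma g_int (n j : ℕ) : ∃ z : ℤ, 64 * g n j = z := by
  rcases lt_or_ge n (2 * j) with hl | hl
  · obtain ⟨c, hc⟩ : ∃ c, 2 * j = n + c + 1 := ⟨2 * j - n - 1, by omega⟩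
    exact ⟨0, by rw [g, hc, iv_lt]; simp⟩
  · obtain ⟨d, rfl⟩ := Nat.exists_eq_add_of_le hl
    obtain ⟨s, hs⟩ := sc (j + d) (3 * j + d + 1)
    obtain ⟨x, hx⟩ := bin d (4 * j + d + 1)
    obtain ⟨y, hy⟩ := bin d (4 * j + d + 1 + 1)
    refine ⟨s ^ 2 * y * (2 * x - y), ?_⟩
    push_cast
    rw [← hs, ← hx, ← hy, g, iv_add, show 2 * j + d = j + (j + d) by ring, hz_ad,
      show j + (j + d) + j + 1 = 3 * j + d + 1 by ring, show j + (j + d) + 2 * j + 2 = 4 * j + d + 1 + 1 by ring,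
      show d + (4 * j + d + 1 + 1) = 4 * j + 2 * d + 1 + 1 by ring, show d + (4 * j + d + 1) = 4 * j + 2 * d + 1 by ring,
      show j + d + (3 * j + d + 1) = 4 * j + 2 * d + 1 by ring, factorial_succ (4 * j + 2 * d + 1),
      factorial_succ (4 * j + d + 1), show (256 : ℚ) = 4 ^ 4 by norm_num, ← pow_mul]
    push_cast
    field_simp
    ring

lemma odd_c : ∀ n : ℕ, 1 ≤ n → (Odd ((2 * n - 1).choose n) ↔ ∃ k, n = 2 ^ k) := by
  intro n
  induction n using Nat.strong_induction_on with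
  | _ n ih =>
    intro hn
    have e := Choose.choose_modEq_choose_mod_mul_choose_div_nat (n := 2 * n - 1) (k := n) (p := 2)
    rw [Nat.odd_iff, e]
    rcases Nat.even_or_odd' n with ⟨m, rfl | rfl⟩
    · rw [show (2 * (2 * m) - 1) % 2 = 1 by omega, show 2 * m % 2 = 0 by omega, show (2 * (2 * m) - 1) / 2 = 2 * m - 1 by omega,
        show 2 * m / 2 = m by omega, Nat.choose_zero_right, one_mul, ← Nat.odd_iff, ih m (by omega) (by omega)]
      constructor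
      · rintro ⟨k, rfl⟩; exact ⟨k + 1, by ring⟩
      · rintro ⟨_ | k, hk⟩
        · omega
        · exact ⟨k, by rw [pow_succ] at hk; omega⟩
    · rw [show (2 * (2 * m + 1) - 1) % 2 = 1 by omega, show (2 * m + 1) % 2 = 1 by omega,
        show (2 * (2 * m + 1) - 1) / 2 = 2 * m by omega, show (2 * m + 1) / 2 = m by omega, Nat.choose_self, one_mul]
      rcases Nat.eq_zero_or_pos m with rfl | hm
      · exact iff_of_true (by simp) ⟨0, rfl⟩
      · have := Nat.two_dvd_centralBinom_of_one_le hm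
        rw [Nat.centralBinom_eq_two_mul_choose] at this
        refine iff_of_false (by omega) ?_
        rintro ⟨_ | k, hk⟩
        · omega
        · rw [pow_succ] at hk; omega

theorem result (a : ℕ → ℚ) (h1 : a 1 = 2)
    (h2 : ∀ n : ℕ, 2 ≤ n → (2 * n + 1) ^ 3 * a n = 32 * n ^ 3 * a (n - 1) +
      (21 * n ^ 3 + 22 * n ^ 2 + 8 * n + 1) * ((2 * n - 1).choose n : ℚ) ^ 4) :
    ∀ n : ℕ, 1 ≤ n → (∃ z : ℤ, 0 < z ∧ a n = z) ∧ ((∃ z : ℤ, Odd z ∧ a n = z) ↔ ∃ k, 1 ≤ k ∧ n = 2 ^ k) := by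
  have A : ∀ m : ℕ, a (m + 1) = b (m + 1) ∧ 0 < a (m + 1) ∧ ∃ o z : ℤ, Odd o ∧ o * a (m + 1) = z := by
    intro m
    induction m with
    | zero => refine ⟨?_, by rw [h1]; norm_num, 1, 2, odd_one, by rw [h1]; norm_num⟩
              rw [h1]; simp [b, g, sum_range_succ, hz, iv, h, factorial]; norm_num
    | succ m ih =>
      obtain ⟨i1, i2, o, z, ho, hz⟩ := ih
      have e := h2 (m + 1 + 1) (by omega)
      have e' := b_rec (m + 1)
      rw [show m + 1 + 1 - 1 = m + 1 from rfl] at e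
      have p0 : (0 : ℚ) < (2 * ((m + 1 + 1 : ℕ) : ℚ) + 1) ^ 3 := by positivity
      refine ⟨mul_left_cancel₀ p0.ne' ?_, ?_, (2 * (m + 2) + 1) ^ 3 * o, 32 * (m + 2) ^ 3 * z +
        o * (21 * (m + 2) ^ 3 + 22 * (m + 2) ^ 2 + 8 * (m + 2) + 1) * ((2 * (m + 1 + 1) - 1).choose (m + 1 + 1)) ^ 4,
        (Odd.pow ⟨(m : ℤ) + 2, rfl⟩).mul ho, ?_⟩
      · rw [e, i1]; push_cast at e' ⊢; linear_combination -e'
      · refine (mul_pos_iff_of_pos_left p0).1 ?_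
        rw [e]; positivity
      · push_cast at e ⊢; rw [← hz]; linear_combination (o : ℚ) * e
  have B : ∀ m : ℕ, ∃ z : ℤ, a (m + 1) = z := by
    intro m
    obtain ⟨i1, -, o, z, ho, hz⟩ := A m
    obtain ⟨w, hw⟩ := sum_int (n := m + 1 + 1) (f := fun j => 64 * g (m + 1) j) (fun j _ => g_int _ j)
    rw [← mul_sum, ← b, ← i1] at hw
    refine int_of_coprime (a := 2 ^ 6) (b := o) (IsCoprime.pow_left ?_) (by push_cast; exact hw) hz
    obtain ⟨c, rfl⟩ := ho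
    exact ⟨-c, 1, by ring⟩
  intro n hn
  obtain ⟨m, rfl⟩ : ∃ m, n = m + 1 := ⟨n - 1, by omega⟩
  obtain ⟨z, hz⟩ := B m
  refine ⟨⟨z, by have := (A m).2.1; rw [hz] at this; exact_mod_cast this, hz⟩, ?_⟩
  have C : (∃ y : ℤ, Odd y ∧ a (m + 1) = y) ↔ Odd z :=
    ⟨fun ⟨y, h3, h4⟩ => by rw [hz] at h4; rw [show z = y by exact_mod_cast h4]; exact h3, fun h3 => ⟨z, h3, hz⟩⟩
  rw [C]
  rcases m with _ | m
  · have : z = 2 := by rw [zero_add, h1] at hz; exact_mod_cast hz.symm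
    rw [this]
    refine iff_of_false (by decide) ?_
    rintro ⟨_ | k, h3, h4⟩
    · omega
    · rw [pow_succ] at h4; omega
  · obtain ⟨y, hy⟩ := B m
    have e := h2 (m + 1 + 1) (by omega)
    rw [show m + 1 + 1 - 1 = m + 1 from rfl, hz, hy] at e
    have D := odd_c (m + 1 + 1) (by omega)
    generalize (2 * (m + 1 + 1) - 1).choose (m + 1 + 1) = c at e D
    generalize hN : m + 1 + 1 = N at e D ⊢
    have e2 : (2 * (N : ℤ) + 1) ^ 3 * z = 32 * N ^ 3 * y + (21 * N ^ 3 + 22 * N ^ 2 + 8 * N + 1) * (c : ℤ) ^ 4 := by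
      exact_mod_cast e
    have e3 : Odd z ↔ Even N ∧ Odd c := by
      have := congrArg Odd e2
      simp only [eq_iff_iff] at this
      have k1 : Odd ((2 * (N : ℤ) + 1) ^ 3) := Odd.pow ⟨N, rfl⟩
      have k2 : Even (32 * (N : ℤ) ^ 3 * y) := ⟨16 * N ^ 3 * y, by ring⟩
      have k3 : Odd (21 * (N : ℤ) ^ 3 + 22 * N ^ 2 + 8 * N + 1) ↔ Even N := by
        rcases Nat.even_or_odd' N with ⟨u, rfl | rfl⟩
        · exact iff_of_true ⟨84 * u ^ 3 + 44 * u ^ 2 + 8 * u, by push_cast; ring⟩ (by simp)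
        · refine iff_of_false (Int.not_odd_iff_even.2 ⟨84 * u ^ 3 + 170 * u ^ 2 + 115 * u + 26, by push_cast; ring⟩) (by simp)
      rw [Int.odd_mul, Int.odd_add', Int.odd_mul, k3, Int.odd_pow' (m := (c : ℤ)) (by norm_num), Int.odd_coe_nat] at this
      simpa [k1, k2] using this
    rw [e3, D]
    constructor
    · rintro ⟨-, _ | k, hk⟩
      · omega
      · exact ⟨k + 1, by omega, hk⟩
    · rintro ⟨_ | k, h3, hk⟩
      · omega
      · exact ⟨⟨2 ^ k, by rw [hk]; ring⟩, k + 1, hk⟩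

end Pool.Agent.Results.MP_d51828_nt.Int
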